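import Pool.Agent.H70.MapE.Defs
import Pool.Agent.H70.MapDefs
import Pool.Agent.H70.Dehn
import Pool.Agent.H70.NotFG

/-!
The elementary form of `TorusLift` (homomorphisms of mapping class groups given on
representatives) from the form with quotient groups.
-/

set_option autoImplicit false

open Complex Metric Set Topology Manifold

namespace Pool.Agent.H70.MapE

open Pool.Agent.H70

/-- the atlas of an oriented surface -/
def conv (S : MapDefs.OrientedSurface) : Set (OpenPartialHomeomorph S.carrier ℂ) :=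
  atlas ℂ S.carrier

lemma conv_surface (S : MapDefs.OrientedSurface) : Surface (conv S) := by
  refine ⟨S.t2, S.secondCountable, S.connected,
    fun x => ⟨chartAt ℂ x, chart_mem_atlas ℂ x, mem_chart_source ℂ x⟩, ?_⟩
  intro c hc c' hc' x hx hx'
  have h := (HasGroupoid.compatible (G := MapDefs.orientGroupoid) hc hc').1.2 (c x) (by
    rw [OpenPartialHomeomorph.trans_source]
    refine ⟨c.map_source hx, ?_⟩
    show c.symm (c x) ∈ c'.source
    rw [c.left_inv hx]
    exact hx')
  exact h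

variable (S S' : MapDefs.OrientedSurface)

lemma op_iff (h : S.carrier ≃ₜ S.carrier) :
    OP (conv S) h ↔ h ∈ MapDefs.HomeoPos S.carrier := by
  constructor
  · intro H c c' hc hc'
    have key : ∀ z ∈ (c.symm ≫ₕ h.toOpenPartialHomeomorph ≫ₕ c').source,
        MapDefs.PosAt (c.symm ≫ₕ h.toOpenPartialHomeomorph ≫ₕ c') z := by
      intro z hz
      rw [OpenPartialHomeomorph.trans_source, OpenPartialHomeomorph.trans_source] at hz
      obtain ⟨h1, h2⟩ := hz
      have h1' : z ∈ c.target := h1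
      have h3 : h (c.symm z) ∈ c'.source := h2.2
      have h4 : MapDefs.PosAt (fun w => c' (h (c.symm w))) (c (c.symm z)) :=
        H c hc c' hc' (c.symm z) (c.map_target h1') h3
      rw [c.right_inv h1'] at h4
      exact h4
    refine ⟨⟨OpenPartialHomeomorph.continuousOn _, key⟩,
      ⟨OpenPartialHomeomorph.continuousOn _, ?_⟩⟩
    intro z hz
    set e := c.symm ≫ₕ h.toOpenPartialHomeomorph ≫ₕ c' with he
    have hz' : z ∈ e.target := hz
    have h1 : e.symm z ∈ e.source := e.map_target hz'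
    have h2 : e (e.symm z) = z := e.right_inv hz'
    have h3 : MapDefs.PosAt e.symm (e (e.symm z)) := by
      refine MapDefs.PosAt.inv (key _ h1) ?_ (e.left_inv h1) ?_
      · rw [h2]
        filter_upwards [e.open_target.mem_nhds hz'] with w hw using e.right_inv hw
      · rw [h2]
        filter_upwards [e.open_target.mem_nhds hz'] with w hw using
          e.symm.continuousAt (by exact hw)
    rw [h2] at h3
    exact h3
  · intro H c hc c' hc' x hx hx'
    have h := (H c c' hc hc').1.2 (c x) (by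
      rw [OpenPartialHomeomorph.trans_source, OpenPartialHomeomorph.trans_source]
      refine ⟨c.map_source hx, mem_univ _, ?_⟩
      show h (c.symm (c x)) ∈ c'.source
      rw [c.left_inv hx]
      exact hx')
    exact h

lemma iso_iff (a b : MapDefs.HomeoPos S.carrier) :
    MapDefs.Map.mk a = MapDefs.Map.mk b ↔ Iso a.1 b.1 := by
  have h0 : MapDefs.Map.mk a = MapDefs.Map.mk b ↔
      MapDefs.IsotopicToId ((a⁻¹ * b : MapDefs.HomeoPos S.carrier) : S.carrier ≃ₜ S.carrier) :=
    QuotientGroup.eq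
  rw [h0]
  constructor
  · rintro ⟨H, hH, hH', h0, h1⟩
    refine ⟨fun p => a.1 (H p), a.1.continuous.comp hH, ?_, ?_, ?_⟩
    · intro t
      obtain ⟨k, hk⟩ := hH' t
      exact ⟨a.1 * k, fun x => by
        show a.1 (H (t, x)) = a.1 (k x)
        rw [hk]⟩
    · intro x
      show a.1 (H (0, x)) = a.1 x
      rw [h0]
    · intro x
      show a.1 (H (1, x)) = b.1 x
      rw [h1]
      exact a.1.apply_symm_apply (b.1 x)
  · rintro ⟨H, hH, hH', h0, h1⟩
    refine ⟨fun p => a.1.symm (H p), a.1.symm.continuous.comp hH, ?_, ?_, ?_⟩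
    · intro t
      obtain ⟨k, hk⟩ := hH' t
      exact ⟨a.1.symm * k, fun x => by
        show a.1.symm (H (t, x)) = a.1.symm (k x)
        rw [hk]⟩
    · intro x
      show a.1.symm (H (0, x)) = x
      rw [h0]
      exact a.1.symm_apply_apply x
    · intro x
      show a.1.symm (H (1, x)) = a.1.symm (b.1 x)
      rw [h1]

lemma comp_iff (a : MapDefs.HomeoPos S.carrier) :
    Comp (conv S) a.1 ↔ MapDefs.IsCompactlySupported (MapDefs.Map.mk a) := by
  constructor
  · rintro ⟨k, hk, hi, hc⟩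
    refine ⟨⟨k, (op_iff S k).1 hk⟩, ?_, hc⟩
    exact ((iso_iff S a ⟨k, (op_iff S k).1 hk⟩).2 hi).symm
  · rintro ⟨k, hk, hc⟩
    exact ⟨k.1, (op_iff S k.1).2 k.2, (iso_iff S a k).1 hk.symm, hc⟩

theorem main : ∃ (X X' : Type) (_ : TopologicalSpace X) (_ : TopologicalSpace X')
    (A : Set (OpenPartialHomeomorph X ℂ)) (A' : Set (OpenPartialHomeomorph X' ℂ)),
    Surface A ∧ Surface A' ∧ InfType X ∧ InfType X' ∧ ∃ F, Hom A A' F ∧
      ∃ g, OP A g ∧ Comp A g ∧ ∀ n : ℤ, n ≠ 0 → ¬ Comp A' (F (g ^ n)) := by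
  classical
  let T := Isotopy.SS
  let T' := Isotopy.SS'
  let f : MapDefs.Map T →* MapDefs.Map T' := Isotopy.F
  have hsurj : ∀ q : MapDefs.Map T', ∃ a : MapDefs.HomeoPos T'.carrier, MapDefs.Map.mk a = q :=
    fun q => QuotientGroup.mk_surjective q
  choose rep hrep using hsurj
  let F : (T.carrier ≃ₜ T.carrier) → (T'.carrier ≃ₜ T'.carrier) := fun a =>
    if ha : a ∈ MapDefs.HomeoPos T.carrier then (rep (f (MapDefs.Map.mk ⟨a, ha⟩))).1 else 1
  have hF : ∀ a (ha : a ∈ MapDefs.HomeoPos T.carrier),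
      F a = (rep (f (MapDefs.Map.mk ⟨a, ha⟩))).1 := fun a ha => dif_pos ha
  obtain ⟨g0, hg0, hgc⟩ := Dehn.g_supp
  refine ⟨T.carrier, T'.carrier, T.topology, T'.topology, conv T, conv T', conv_surface T,
    conv_surface T', NotFG.not_fg_S, NotFG.not_fg_S', F, ⟨?_, ?_, ?_⟩, g0.1,
    (op_iff T g0.1).2 g0.2, ?_, ?_⟩
  · intro a ha
    rw [hF a ((op_iff T a).1 ha)]
    exact (op_iff T' _).2 (rep _).2
  · intro a b ha hb hab
    rw [hF a ((op_iff T a).1 ha), hF b ((op_iff T b).1 hb)]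
    refine (iso_iff T' _ _).1 ?_
    rw [hrep, hrep]
    congr 1
    exact (iso_iff T ⟨a, (op_iff T a).1 ha⟩ ⟨b, (op_iff T b).1 hb⟩).2 hab
  · intro a b ha hb
    have ha' := (op_iff T a).1 ha
    have hb' := (op_iff T b).1 hb
    rw [hF a ha', hF b hb', hF (a * b) (mul_mem ha' hb')]
    have h : MapDefs.Map.mk (rep (f (MapDefs.Map.mk ⟨a * b, mul_mem ha' hb'⟩))) =
        MapDefs.Map.mk (rep (f (MapDefs.Map.mk ⟨a, ha'⟩)) *
          rep (f (MapDefs.Map.mk ⟨b, hb'⟩))) := by
      rw [hrep]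
      have h1 : MapDefs.Map.mk (rep (f (MapDefs.Map.mk ⟨a, ha'⟩)) *
          rep (f (MapDefs.Map.mk ⟨b, hb'⟩))) =
          MapDefs.Map.mk (rep (f (MapDefs.Map.mk ⟨a, ha'⟩))) *
            MapDefs.Map.mk (rep (f (MapDefs.Map.mk ⟨b, hb'⟩))) := rfl
      rw [h1, hrep, hrep, ← map_mul]
      rfl
    exact (iso_iff T' _ _).1 h
  · refine (comp_iff T g0).2 ⟨g0, rfl, hgc⟩
  · intro n hn hc
    have hm : g0.1 ^ n ∈ MapDefs.HomeoPos T.carrier := zpow_mem g0.2 n
    have hc1 : Comp (conv T') (rep (f (MapDefs.Map.mk ⟨g0.1 ^ n, hm⟩))).1 :=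
      (congrArg (Comp (conv T')) (hF _ hm)).mp hc
    have hc' := (comp_iff T' _).1 hc1
    rw [hrep] at hc'
    apply Dehn.not_supp n hn
    have h1 : MapDefs.Map.mk ⟨g0.1 ^ n, hm⟩ = Dehn.g ^ n := by
      rw [← hg0]
      rfl
    rw [← h1]
    exact hc'

end Pool.Agent.H70.MapE
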