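import Mathlib

open Complex Metric Set Topology

namespace Pool.Agent.H70.MapE

/-- `f` is topologically orientation preserving at `z` (local degree `+1`): near `z` one has
`f w - f z = (w - z) * exp (L w)` with `L` continuous on a punctured disc. -/
def PosAt (f : ℂ → ℂ) (z : ℂ) : Prop :=
  ∃ r > 0, ∃ L : ℂ → ℂ, ContinuousOn L (ball z r \ {z}) ∧
    ∀ w ∈ ball z r \ {z}, f w - f z = (w - z) * exp (L w)

variable {X X' : Type} [TopologicalSpace X] [TopologicalSpace X']

/-- `X` with the atlas `A` is an oriented surface: connected, Hausdorff, second countable, covered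
by the charts in `A`, with orientation preserving transition maps. -/
def Surface (A : Set (OpenPartialHomeomorph X ℂ)) : Prop :=
  T2Space X ∧ SecondCountableTopology X ∧ ConnectedSpace X ∧ (∀ x, ∃ c ∈ A, x ∈ c.source) ∧
    ∀ c ∈ A, ∀ c' ∈ A, ∀ x ∈ c.source, x ∈ c'.source → PosAt (fun w => c' (c.symm w)) (c x)

/-- Infinite type: the fundamental group is not finitely generated. -/
def InfType (X : Type) [TopologicalSpace X] : Prop := ∀ x : X, ¬ Group.FG (FundamentalGroup X x)

/-- The homeomorphism `h` preserves the orientation (in all charts). -/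
def OP (A : Set (OpenPartialHomeomorph X ℂ)) (h : X ≃ₜ X) : Prop :=
  ∀ c ∈ A, ∀ c' ∈ A, ∀ x ∈ c.source, h x ∈ c'.source →
    PosAt (fun w => c' (h (c.symm w))) (c x)

/-- `a` and `b` are isotopic: joined by a continuous family of homeomorphisms. -/
def Iso (a b : X ≃ₜ X) : Prop :=
  ∃ H : unitInterval × X → X, Continuous H ∧ (∀ t, ∃ k : X ≃ₜ X, ∀ x, H (t, x) = k x) ∧
    (∀ x, H (0, x) = a x) ∧ ∀ x, H (1, x) = b x

/-- The mapping class of `h` is compactly supported: `h` is isotopic to an orientation preserving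
homeomorphism which is the identity outside a compact set. -/
def Comp (A : Set (OpenPartialHomeomorph X ℂ)) (h : X ≃ₜ X) : Prop :=
  ∃ k, OP A k ∧ Iso h k ∧ ∃ K : Set X, IsCompact K ∧ ∀ x, x ∉ K → k x = x

/-- `F` induces a group homomorphism from the mapping class group of `X` (orientation preserving
homeomorphisms up to isotopy) to that of `X'`. -/
def Hom (A : Set (OpenPartialHomeomorph X ℂ)) (A' : Set (OpenPartialHomeomorph X' ℂ))
    (F : (X ≃ₜ X) → (X' ≃ₜ X')) : Prop :=
  (∀ a, OP A a → OP A' (F a)) ∧ (∀ a b, OP A a → OP A b → Iso a b → Iso (F a) (F b)) ∧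
    ∀ a b, OP A a → OP A b → Iso (F (a * b)) (F a * F b)

end Pool.Agent.H70.MapE
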